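import Pool.Agent.Q251.CF.Box

/-!
# Conjecture F for almost all triples of height at most `H`

For all but few of the triples `(a, b, c)` of height at most `H` the formula of Hardy and Littlewood, with the
constant `C(a, b, c)`, holds for all `x` with `H ^ ε ≤ x ≤ H / (log H) ^ B`.
-/

set_option autoImplicit false

namespace Pool.Agent.Results.MP_a17b09_nt.AlmostAllTriples

open Finset Filter Topology

/-- The admissible triples. -/
def Admissible (a b c : ℤ) : Prop :=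
  0 < a ∧ (∀ d : ℤ, d ∣ a → d ∣ b → d ∣ c → IsUnit d) ∧ ¬ ((2 : ℤ) ∣ a + b ∧ (2 : ℤ) ∣ c) ∧
    ¬ IsSquare (b ^ 2 - 4 * a * c)

/-- `π_f(x)`: the number of `1 ≤ t ≤ x` such that `f(t) = a t² + b t + c` is a prime. -/
def piF (a b c : ℤ) (x : ℕ) : ℕ :=
  #((Icc 1 x).filter (fun t : ℕ => (a * (t : ℤ) ^ 2 + b * t + c).toNat.Prime))

/-- The sum of `1 / log f(t)` over the `1 ≤ t ≤ x` with `f(t) ≥ 2`. -/
noncomputable def M (a b c : ℤ) (x : ℕ) : ℝ :=
  ∑ t ∈ (Icc 1 x).filter (fun t : ℕ => 2 ≤ a * (t : ℤ) ^ 2 + b * t + c),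
    1 / Real.log ((a * (t : ℤ) ^ 2 + b * t + c : ℤ) : ℝ)

/-- The number of `1 ≤ t ≤ x` such that `|f(t)|` is a prime. -/
def piAbs (a b c : ℤ) (x : ℕ) : ℕ :=
  #((Icc 1 x).filter (fun t : ℕ => (a * (t : ℤ) ^ 2 + b * t + c).natAbs.Prime))

/-- The sum of `1 / log |f(t)|` over the `1 ≤ t ≤ x` with `|f(t)| ≥ 2`. -/
noncomputable def MAbs (a b c : ℤ) (x : ℕ) : ℝ :=
  ∑ t ∈ (Icc 1 x).filter (fun t : ℕ => 2 ≤ |a * (t : ℤ) ^ 2 + b * t + c|),
    1 / Real.log |((a * (t : ℤ) ^ 2 + b * t + c : ℤ) : ℝ)|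

/-- The constant `C(a, b, c)` of Conjecture F, the products being cut at `z`. -/
noncomputable def cut (a b c : ℤ) (z : ℕ) : ℝ :=
  (if (2 : ℤ) ∣ a + b then 1 else 1 / 2) *
  (∏ p ∈ (range (z + 1)).filter (fun p : ℕ => p.Prime ∧ 3 ≤ p ∧ (p : ℤ) ∣ a ∧ (p : ℤ) ∣ b),
    (p : ℝ) / (p - 1)) *
  ∏ p ∈ (range (z + 1)).filter (fun p : ℕ => p.Prime ∧ 3 ≤ p ∧ ¬ (p : ℤ) ∣ a),
    (1 - (jacobiSym (b ^ 2 - 4 * a * c) p : ℝ) / (p - 1))

/-- The triples `(a, b, c)` with `1 ≤ a ≤ H` and `|b|, |c| ≤ H`. -/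
noncomputable def T (H : ℕ) : Finset (ℤ × ℤ × ℤ) :=
  Icc (1 : ℤ) H ×ˢ Icc (-(H : ℤ)) H ×ˢ Icc (-(H : ℤ)) H

open Pool.Agent.TH892 Pool.Agent.W468.ConjF Pool.Agent.H300R2.BH Pool.Agent.H300R2.FB
open Pool.Agent.H373R2.BH (eulerProduct omegaP)
open Pool.Agent.H442R2.EHI (evt_log_pow evt_log_ge)

lemma pol_eval3 (a b c n : ℤ) : (pol (j := 2) ![c, b, a]).eval n = a * n ^ 2 + b * n + c := by
  rw [pol_eval, Fin.sum_univ_three]
  simp
  ring

lemma rho_nr (a b c : ℤ) (p : ℕ) : rho (pol (j := 2) ![c, b, a]) p = nr a b c p := by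
  unfold rho nr
  congr 1
  apply filter_congr
  intro r _
  rw [pol_eval3]

lemma nr_lt (a b c : ℤ) (h : Admissible a b c) (p : ℕ) (hp : p.Prime) : nr a b c p < p := by
  obtain ⟨ha, hg, h2, -⟩ := h
  rcases hp.eq_two_or_odd with rfl | hodd
  · rw [nr_two a b c h2]
    split_ifs <;> norm_num
  · have hp2 := hp.two_le
    have hp3 : 3 ≤ p := by omega
    by_cases hpa : (p : ℤ) ∣ a
    · by_cases hpb : (p : ℤ) ∣ b
      · have hpc : ¬ (p : ℤ) ∣ c := by
          intro hc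
          have h1 := hg _ hpa hpb hc
          rw [Int.isUnit_iff] at h1
          omega
        rw [nr_none a b c p hpa hpb hpc]
        omega
      · rw [nr_lin a b c p hp hpa hpb]
        omega
    · have h1 := nr_odd a b c p hp hp3 hpa
      have h3 : jacobiSym (b ^ 2 - 4 * a * c) p ≤ 1 := by
        rcases jacobiSym.trichotomy (b ^ 2 - 4 * a * c) p with h | h | h <;> rw [h] <;> norm_num
      omega

lemma SS_cut (a b c : ℤ) (h : Admissible a b c) (z : ℕ) (hz : 2 ≤ z) :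
    SS z (pol (j := 2) ![c, b, a]) = 2 * cut a b c z := by
  have h1 := euler_eq a b c h z hz (fun _ => Pool.Agent.W468.ConjF.P a b c) (fun _ => rfl)
  have h2 : SS z (pol (j := 2) ![c, b, a]) =
      eulerProduct (fun _ : Fin 1 => Pool.Agent.W468.ConjF.P a b c) z := by
    classical
    unfold SS eulerProduct
    have hs : (Icc 1 z).filter Nat.Prime = (range (z + 1)).filter Nat.Prime := by
      ext p
      rw [mem_filter, mem_filter, mem_Icc, mem_range]
      constructor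
      · rintro ⟨h3, h4⟩
        exact ⟨by omega, h4⟩
      · rintro ⟨h3, h4⟩
        exact ⟨⟨h4.one_le, by omega⟩, h4⟩
    rw [hs]
    apply prod_congr rfl
    intro p hp
    have e : omegaP (fun _ : Fin 1 => Pool.Agent.W468.ConjF.P a b c) p =
        rho (pol (j := 2) ![c, b, a]) p := by
      rw [rho_nr]
      unfold omegaP nr
      congr 1
      apply filter_congr
      intro r _
      simp only [eval_P, exists_const]
    rw [e, pow_one, div_eq_inv_mul]
  rw [h2, h1]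
  rfl

lemma pv_eq (a b c : ℤ) (x : ℕ) : pv (pol (j := 2) ![c, b, a]) x = (piF a b c x : ℝ) := by
  unfold pv piF
  simp_rw [pol_eval3]

lemma pa_eq (a b c : ℤ) (x : ℕ) : pa (pol (j := 2) ![c, b, a]) x = (piAbs a b c x : ℝ) := by
  unfold pa piAbs
  simp_rw [pol_eval3]

lemma lF_eq (a b c : ℤ) (x : ℕ) : lF (pol (j := 2) ![c, b, a]) x = M a b c x := by
  unfold lF M
  simp_rw [pol_eval3]

lemma la_eq (a b c : ℤ) (x : ℕ) : la (pol (j := 2) ![c, b, a]) x = MAbs a b c x := by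
  unfold la MAbs
  simp_rw [pol_eval3]

/-- the triple of the coefficients -/
def tr (v : Fin 3 → ℤ) : ℤ × ℤ × ℤ := (v 2, v 1, v 0)

lemma mem_box3 (H : ℕ) (v : Fin 3 → ℤ) : v ∈ box 2 H ↔ tr v ∈ T H := by
  unfold Pool.Agent.TH892.box T tr
  rw [Fintype.mem_piFinset, mem_product, mem_product, mem_Icc, mem_Icc, mem_Icc]
  constructor
  · intro h
    have h0 := h 0
    have h1 := h 1
    have h2 := h 2
    simp at h0 h1 h2
    exact ⟨h2, h1, h0⟩
  · rintro ⟨h2, h1, h0⟩ i
    fin_cases i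
    · simpa using h0
    · simpa using h1
    · simpa using h2

lemma tr_inj : Function.Injective tr := by
  intro v w h
  unfold tr at h
  simp only [Prod.mk.injEq] at h
  funext i
  fin_cases i
  · exact h.2.2
  · exact h.2.1
  · exact h.1

lemma tr_mk (a b c : ℤ) : tr ![c, b, a] = (a, b, c) := rfl

/-- **Conjecture F for almost all triples.** Let `ε > 0` and `U ≥ 0`. There are `B` and `H₀` such that for
`H ≥ H₀` for all but at most `|T(H)| / (log H) ^ U` of the triples `(a, b, c)` of `T(H)`: if `(a, b, c)` is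
admissible, the products in the definition of `C(a, b, c)` converge to a number `C > 0`, and for ALL `x` with
`H ^ ε ≤ x` and `x (log H) ^ B ≤ H`
* the number `π_f(x)` of the `t ≤ x` with `f(t)` prime is `2 C ∑ 1 / log f(t)`, the sum over the `t ≤ x` with
  `f(t) ≥ 2`, up to an error of at most `C x / (log H) ^ U`;
* the number of the `t ≤ x` with `|f(t)|` prime is `2 C ∑ 1 / log |f(t)|`, the sum over the `t ≤ x` with
  `|f(t)| ≥ 2`, up to a relative error of at most `1 / (log H) ^ U`. -/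
theorem result (ε : ℝ) (hε : 0 < ε) (U : ℕ) : ∃ B H0 : ℕ, ∀ H : ℕ, H0 ≤ H →
    ∃ Bad ⊆ T H, (#Bad : ℝ) ≤ #(T H) / Real.log H ^ U ∧
    ∀ a b c : ℤ, (a, b, c) ∈ T H → (a, b, c) ∉ Bad → Admissible a b c →
      ∃ C : ℝ, 0 < C ∧ Tendsto (cut a b c) atTop (𝓝 C) ∧
      ∀ x : ℕ, (H : ℝ) ^ ε ≤ x → (x : ℝ) * Real.log H ^ B ≤ H →
        |(piF a b c x : ℝ) - 2 * C * M a b c x| ≤ C * x / Real.log H ^ U ∧
        |(piAbs a b c x : ℝ) - 2 * C * MAbs a b c x| ≤ 2 * C * MAbs a b c x / Real.log H ^ U := by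
  classical
  obtain ⟨E1, h1⟩ := exc_box 2 (by norm_num) ε hε (U + 3)
  obtain ⟨E2, h2⟩ := Pool.Agent.Q251.CF.exc_pos 2 (by norm_num) ε hε (U + 3)
  obtain ⟨E3, h3⟩ := CF_box (U + 3) (U + 3)
  obtain ⟨κ, hκ, hSSl⟩ := SS_lower 2 (by norm_num)
  set E : ℕ := max (max E1 E2) E3 + 1 with hE
  obtain ⟨B1, H1, g1⟩ := h1 E (by omega)
  obtain ⟨B2, H2, g2⟩ := h2 E (by omega)
  obtain ⟨H3, g3⟩ := h3 E (by omega)
  obtain ⟨H4, g4⟩ := SS_small (E - 1)
  rw [show E - 1 + 1 = E by omega] at g4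
  have hlogs : ∀ᶠ x : ℕ in atTop, (E * Real.log (Real.log x)) ^ 4 * 12 ≤ κ * Real.log x := by
    have h1 : (fun t : ℝ => Real.log t ^ 4) =o[atTop] fun t : ℝ => t :=
      Real.isLittleO_pow_log_id_atTop
    have h2 := h1.bound (show (0:ℝ) < κ / (12 * (1 + E) ^ 4) by positivity)
    have h3 := (Real.tendsto_log_atTop.comp (tendsto_natCast_atTop_atTop (R := ℝ))).eventually h2
    filter_upwards [h3, evt_log_ge (Real.exp 1)] with x hx hx2
    simp only [Function.comp] at hx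
    have ht0 : 0 < Real.log x := lt_of_lt_of_le (Real.exp_pos 1) hx2
    have hl : 1 ≤ Real.log (Real.log x) := by
      rw [Real.le_log_iff_exp_le ht0]; exact hx2
    rw [Real.norm_of_nonneg (by positivity), Real.norm_of_nonneg ht0.le] at hx
    calc (E * Real.log (Real.log x)) ^ 4 * 12
        ≤ ((1 + E) * Real.log (Real.log x)) ^ 4 * 12 := by
          gcongr
          linarith
      _ = (12 * (1 + E) ^ 4) * Real.log (Real.log x) ^ 4 := by
          rw [mul_pow]; ring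
      _ ≤ (12 * (1 + E) ^ 4) * (κ / (12 * (1 + E) ^ 4) * Real.log x) := by gcongr
      _ = κ * Real.log x := by field_simp
  obtain ⟨H5, g5⟩ := eventually_atTop.mp (hlogs.and (evt_log_ge 8))
  refine ⟨max B1 B2, max (max (max H1 H2) (max H3 H4)) H5, fun H hH => ?_⟩
  have k1 : H1 ≤ H := (((le_max_left _ _).trans (le_max_left _ _)).trans (le_max_left _ _)).trans hH
  have k2 : H2 ≤ H := (((le_max_right _ _).trans (le_max_left _ _)).trans (le_max_left _ _)).trans hH
  have k3 : H3 ≤ H := (((le_max_left _ _).trans (le_max_right _ _)).trans (le_max_left _ _)).trans hH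
  have k4 : H4 ≤ H := (((le_max_right _ _).trans (le_max_right _ _)).trans (le_max_left _ _)).trans hH
  have k5 : H5 ≤ H := (le_max_right _ _).trans hH
  obtain ⟨hll, hL8⟩ := g5 H k5
  obtain ⟨hz3, -⟩ := g4 H k4
  have q1 := g1 H k1
  have q2 := g2 H k2
  obtain ⟨X, hXT, hXc, hX⟩ := g3 H k3
  set L := Real.log H with hLdef
  set z := ⌊L ^ E⌋₊ with hz
  have hL0 : 0 < L := by linarith
  have hL1 : 1 ≤ L := by linarith
  have hLp0 : ∀ n : ℕ, 0 < L ^ n := fun n => by positivity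
  have hLp : ∀ n : ℕ, 1 ≤ L ^ n := fun n => one_le_pow₀ hL1
  obtain ⟨P1, hP1⟩ : ∃ P1 : (Fin (2 + 1) → ℤ) → Prop, P1 = fun v =>
      (∀ p : ℕ, p.Prime → p ≤ z → rho (pol v) p ≠ p) ∧
      ∃ K : ℕ, (H : ℝ) ^ ε ≤ K ∧ (K : ℝ) * L ^ B1 ≤ H ∧
        SS z (pol v) * la (pol v) K / L ^ (U + 3) < |pa (pol v) K - SS z (pol v) * la (pol v) K| := ⟨_, rfl⟩
  obtain ⟨P2, hP2⟩ : ∃ P2 : (Fin (2 + 1) → ℤ) → Prop, P2 = fun v =>
      ∃ K : ℕ, (H : ℝ) ^ ε ≤ K ∧ (K : ℝ) * L ^ B2 ≤ H ∧
        K / L ^ (U + 3) < |pv (pol v) K - SS z (pol v) * lF (pol v) K| := ⟨_, rfl⟩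
  have c1 : (((box 2 H).filter P1).card : ℝ) ≤ ((box 2 H).card : ℝ) / L ^ (U + 3) :=
    q1 P1 (fun v _ hv => by rw [hP1] at hv; exact hv)
  have c2 : (((box 2 H).filter P2).card : ℝ) ≤ ((box 2 H).card : ℝ) / L ^ (U + 3) :=
    q2 P2 (fun v _ hv => by rw [hP2] at hv; exact hv)
  have hTr : Tr H = T H := rfl
  have cbox : ((box 2 H).card : ℝ) ≤ #(T H) := by
    have := card_le_card_of_injOn (s := box 2 H) (t := T H) tr
      (fun v hv => mem_coe.2 ((mem_box3 H v).1 (mem_coe.1 hv))) tr_inj.injOn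
    exact_mod_cast this
  obtain ⟨D, hD⟩ : ∃ D : Finset (ℤ × ℤ × ℤ), D = ((box 2 H).filter P1 ∪ (box 2 H).filter P2).image tr := ⟨_, rfl⟩
  refine ⟨D ∪ X, ?_, ?_, ?_⟩
  · intro t ht
    rw [mem_union] at ht
    rcases ht with ht | ht
    · rw [hD, mem_image] at ht
      obtain ⟨v, hv, rfl⟩ := ht
      rw [mem_union] at hv
      rcases hv with hv | hv
      · exact (mem_box3 H v).1 (mem_filter.1 hv).1
      · exact (mem_box3 H v).1 (mem_filter.1 hv).1
    · exact hTr ▸ hXT ht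
  · have e1 : #(D ∪ X) ≤ (#((box 2 H).filter P1) + #((box 2 H).filter P2)) + #X := by
      refine (card_union_le _ _).trans (Nat.add_le_add_right ?_ _)
      rw [hD]
      exact card_image_le.trans (card_union_le _ _)
    have e2 : (#(D ∪ X) : ℝ) ≤ (#((box 2 H).filter P1) + #((box 2 H).filter P2)) + #X := by
      exact_mod_cast e1
    have e3 : ((box 2 H).card : ℝ) / L ^ (U + 3) ≤ #(T H) / L ^ (U + 3) :=
      div_le_div_of_nonneg_right cbox (hLp0 _).le
    rw [hTr] at hXc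
    have e4 : (#(T H) : ℝ) / L ^ (U + 3) = #(T H) / L ^ U * (1 / L ^ 3) := by
      rw [pow_add]
      field_simp
    have e5 : 1 / L ^ 3 ≤ 1 / 8 := by
      apply one_div_le_one_div_of_le (by norm_num)
      calc (8 : ℝ) ≤ L := hL8
        _ = L ^ 1 := (pow_one _).symm
        _ ≤ L ^ 3 := pow_le_pow_right₀ hL1 (by norm_num)
    have e6 : 0 ≤ (#(T H) : ℝ) / L ^ U := by positivity
    have e7 : (#(T H) : ℝ) / L ^ (U + 3) ≤ #(T H) / L ^ U * (1 / 8) := by
      rw [e4]
      exact mul_le_mul_of_nonneg_left e5 e6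
    linarith
  · intro a b c hT hnB hadm
    rw [mem_union, not_or] at hnB
    obtain ⟨nD, nX⟩ := hnB
    have hvbox : (![c, b, a] : Fin (2 + 1) → ℤ) ∈ box 2 H := (mem_box3 H _).2 (by rw [tr_mk]; exact hT)
    have nP1 : ¬ P1 ![c, b, a] := by
      intro hh
      apply nD
      rw [hD, mem_image]
      exact ⟨![c, b, a], mem_union_left _ (mem_filter.2 ⟨hvbox, hh⟩), tr_mk a b c⟩
    have nP2 : ¬ P2 ![c, b, a] := by
      intro hh
      apply nD
      rw [hD, mem_image]
      exact ⟨![c, b, a], mem_union_right _ (mem_filter.2 ⟨hvbox, hh⟩), tr_mk a b c⟩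
    have hnf : ∀ p : ℕ, p.Prime → p ≤ z → rho (pol (j := 2) ![c, b, a]) p ≠ p := by
      intro p hp _
      rw [rho_nr]
      exact (nr_lt a b c hadm p hp).ne
    have hc0 : c ≠ 0 := by
      rintro rfl
      apply hadm.2.2.2
      exact ⟨b, by ring⟩
    obtain ⟨C, hC, hlim⟩ := CF_tendsto a b c hadm.1 hadm.2.2.2
    have hlim' : Tendsto (cut a b c) atTop (𝓝 C) := hlim
    have hcmp := hX (a, b, c) (by rw [hTr]; exact hT) nX hc0 (by
      show ¬ IsSquare (b ^ 2 - 4 * a * c)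
      exact hadm.2.2.2)
    set θ : ℝ := 1 / L ^ (U + 3) with hθ
    have hθ0 : 0 < θ := by positivity
    have hθ1 : θ ≤ 1 / 8 := by
      rw [hθ]
      apply one_div_le_one_div_of_le (by norm_num)
      calc (8 : ℝ) ≤ L := hL8
        _ = L ^ 1 := (pow_one _).symm
        _ ≤ L ^ (U + 3) := pow_le_pow_right₀ hL1 (by omega)
    have hCz := CF_limit a b c C hC hlim z θ (by linarith) hcmp
    have hcutz : |cut a b c z - C| ≤ 2 * θ * C := hCz
    have hSS := SS_cut a b c hadm z (by omega)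
    set S := SS z (pol (j := 2) ![c, b, a]) with hSdef
    have hS1 : |S - 2 * C| ≤ 4 * θ * C := by
      rw [hSS]
      have : 2 * cut a b c z - 2 * C = 2 * (cut a b c z - C) := by ring
      rw [this, abs_mul, abs_of_pos (by norm_num : (0 : ℝ) < 2)]
      linarith
    have hSab := abs_le.1 hS1
    have hθC : θ * C ≤ 1 / 8 * C := mul_le_mul_of_nonneg_right hθ1 hC.le
    have hS3C : S ≤ 3 * C := by linarith [hSab.2]
    have hSC : C ≤ S := by linarith [hSab.1]
    -- lower bound for the constant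
    have hCl : 2 / L ≤ C := by
      have hs1 := hSSl z hz3 (pol (j := 2) ![c, b, a]) (pol_natDegree_le _) hnf
      have hzle : (z:ℝ) ≤ L ^ E := Nat.floor_le (by positivity)
      have hzr : (3:ℝ) ≤ z := by exact_mod_cast hz3
      have hlogz : Real.log z ≤ E * Real.log L := by
        rw [← Real.log_pow]
        exact Real.log_le_log (by linarith) hzle
      have hlogz0 : 0 < Real.log z := Real.log_pos (by linarith)
      have h3 : 12 / L ≤ S := by
        refine le_trans ?_ hs1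
        rw [div_le_div_iff₀ hL0 (by positivity)]
        calc 12 * Real.log z ^ (2 * 2) ≤ 12 * (E * Real.log L) ^ (2 * 2) := by gcongr
          _ = (E * Real.log L) ^ 4 * 12 := by ring
          _ ≤ κ * L := hll
      have h4 : 12 / L = 6 * (2 / L) := by ring
      have h5 : 0 < 2 / L := by positivity
      linarith
    refine ⟨C, hC, hlim', fun x hx1 hx2 => ?_⟩
    have hx0 : (0 : ℝ) ≤ x := Nat.cast_nonneg _
    have hxB1 : (x : ℝ) * L ^ B1 ≤ H :=
      (mul_le_mul_of_nonneg_left (pow_le_pow_right₀ hL1 (le_max_left B1 B2)) hx0).trans hx2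
    have hxB2 : (x : ℝ) * L ^ B2 ≤ H :=
      (mul_le_mul_of_nonneg_left (pow_le_pow_right₀ hL1 (le_max_right B1 B2)) hx0).trans hx2
    have hθU : θ = 1 / L ^ U * (1 / L ^ 3) := by
      rw [hθ, pow_add]
      field_simp
    have hL3 : 1 / L ^ 3 ≤ 1 / 512 := by
      apply one_div_le_one_div_of_le (by norm_num)
      calc (512 : ℝ) = 8 ^ 3 := by norm_num
        _ ≤ L ^ 3 := pow_le_pow_left₀ (by norm_num) hL8 3
    have hU0 : 0 < 1 / L ^ U := by positivity
    constructor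
    · have b1 : |pv (pol (j := 2) ![c, b, a]) x - S * lF (pol (j := 2) ![c, b, a]) x| ≤ x / L ^ (U + 3) := by
        by_contra hcon
        apply nP2
        rw [hP2]
        exact ⟨x, hx1, hxB2, not_le.1 hcon⟩
      obtain ⟨m0, m1⟩ := Pool.Agent.Q251.CF.lF_le (pol (j := 2) ![c, b, a]) x
      rw [pv_eq, lF_eq] at b1
      rw [lF_eq] at m0 m1
      have b2 : |(S - 2 * C) * M a b c x| ≤ 4 * θ * C * (2 * x) := by
        rw [abs_mul, abs_of_nonneg m0]
        exact mul_le_mul hS1 m1 m0 (by positivity)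
      have b3 : (piF a b c x : ℝ) - 2 * C * M a b c x =
          ((piF a b c x : ℝ) - S * M a b c x) + (S - 2 * C) * M a b c x := by ring
      rw [b3]
      refine (abs_add_le _ _).trans ((add_le_add b1 b2).trans ?_)
      have b4 : (x : ℝ) / L ^ (U + 3) = θ * x := by rw [hθ]; ring
      have b5 : C * x / L ^ U = (1 / L ^ U) * (C * x) := by ring
      rw [b4, b5, hθU]
      -- `1 ≤ C L / 2`
      have b6 : (1 : ℝ) ≤ C * L / 2 := by
        have := mul_le_mul_of_nonneg_right hCl hL0.le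
        rw [div_mul_cancel₀ _ hL0.ne'] at this
        linarith
      have b7 : 1 / L ^ 3 * (x : ℝ) ≤ 1 / 4 * (C * x) := by
        have e1 : 1 / L ^ 3 * (x : ℝ) ≤ 1 / L ^ 3 * ((C * L / 2) * x) := by
          apply mul_le_mul_of_nonneg_left _ (by positivity)
          nlinarith
        have e2 : 1 / L ^ 3 * ((C * L / 2) * x) = (1 / L ^ 2) * (1 / 2 * (C * x)) := by
          field_simp
        have e3 : 1 / L ^ 2 ≤ 1 / 2 := by
          apply one_div_le_one_div_of_le (by norm_num)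
          nlinarith
        have e4 : (1 / L ^ 2) * (1 / 2 * (C * x)) ≤ 1 / 2 * (1 / 2 * (C * x)) :=
          mul_le_mul_of_nonneg_right e3 (by positivity)
        linarith
      have b8 : 1 / L ^ 3 * (C * x) ≤ 1 / 512 * (C * x) :=
        mul_le_mul_of_nonneg_right hL3 (by positivity)
      have b9 : 0 ≤ C * (x : ℝ) := by positivity
      calc 1 / L ^ U * (1 / L ^ 3) * (x : ℝ) + 4 * (1 / L ^ U * (1 / L ^ 3)) * C * (2 * x)
          = 1 / L ^ U * (1 / L ^ 3 * x + 8 * (1 / L ^ 3 * (C * x))) := by ring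
        _ ≤ 1 / L ^ U * (C * x) := by
            apply mul_le_mul_of_nonneg_left _ hU0.le
            linarith
    · have b1 : |pa (pol (j := 2) ![c, b, a]) x - S * la (pol (j := 2) ![c, b, a]) x| ≤
          S * la (pol (j := 2) ![c, b, a]) x / L ^ (U + 3) := by
        by_contra hcon
        apply nP1
        rw [hP1]
        exact ⟨hnf, x, hx1, hxB1, not_le.1 hcon⟩
      obtain ⟨m0, m1⟩ := Pool.Agent.Q251.CF.la_le (pol (j := 2) ![c, b, a]) x
      rw [pa_eq, la_eq] at b1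
      rw [la_eq] at m0 m1
      have b2 : |(S - 2 * C) * MAbs a b c x| ≤ 4 * θ * C * MAbs a b c x := by
        rw [abs_mul, abs_of_nonneg m0]
        exact mul_le_mul_of_nonneg_right hS1 m0
      have b3 : (piAbs a b c x : ℝ) - 2 * C * MAbs a b c x =
          ((piAbs a b c x : ℝ) - S * MAbs a b c x) + (S - 2 * C) * MAbs a b c x := by ring
      rw [b3]
      refine (abs_add_le _ _).trans ((add_le_add b1 b2).trans ?_)
      have b4 : S * MAbs a b c x / L ^ (U + 3) = θ * (S * MAbs a b c x) := by rw [hθ]; ring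
      have b5 : 2 * C * MAbs a b c x / L ^ U = (1 / L ^ U) * (2 * (C * MAbs a b c x)) := by ring
      rw [b4, b5, hθU]
      have b6 : S * MAbs a b c x ≤ 3 * C * MAbs a b c x := mul_le_mul_of_nonneg_right hS3C m0
      have b9 : 0 ≤ C * MAbs a b c x := by positivity
      have b10 : 0 ≤ 1 / L ^ 3 := by positivity
      have b11 : 1 / L ^ 3 * (S * MAbs a b c x) ≤ 1 / 512 * (3 * (C * MAbs a b c x)) := by
        calc 1 / L ^ 3 * (S * MAbs a b c x) ≤ 1 / L ^ 3 * (3 * C * MAbs a b c x) :=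
              mul_le_mul_of_nonneg_left b6 b10
          _ = 1 / L ^ 3 * (3 * (C * MAbs a b c x)) := by ring
          _ ≤ _ := mul_le_mul_of_nonneg_right hL3 (by positivity)
      have b12 : 1 / L ^ 3 * (C * MAbs a b c x) ≤ 1 / 512 * (C * MAbs a b c x) :=
        mul_le_mul_of_nonneg_right hL3 b9
      calc 1 / L ^ U * (1 / L ^ 3) * (S * MAbs a b c x) +
            4 * (1 / L ^ U * (1 / L ^ 3)) * C * MAbs a b c x
          = 1 / L ^ U * (1 / L ^ 3 * (S * MAbs a b c x) + 4 * (1 / L ^ 3 * (C * MAbs a b c x))) := by ring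
        _ ≤ 1 / L ^ U * (2 * (C * MAbs a b c x)) := by
            apply mul_le_mul_of_nonneg_left _ hU0.le
            linarith

end Pool.Agent.Results.MP_a17b09_nt.AlmostAllTriples
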