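import Pool.Agent.Q138.GS.Fub

/-!
# The Hardy-Littlewood law for almost all real quadratic polynomials and systems of real polynomials

For real polynomials the prime values are those of the integer parts. For almost all real quadratic
polynomials `a X ^ 2 + b X + c` (with respect to Lebesgue measure on the coefficients), and also for
`α f + β` with a fixed (for instance integral) quadratic polynomial `f` and almost all `α > 0`, the number of
`n ≤ N` for which the integer part of the value is a prime number is asymptotic to `N / (2 log N)`. More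
generally this holds for all systems of polynomials of any degrees, and along every given set of at
least `N / (log N) ^ B` integers (for instance the primes, or any set of solutions of another problem on
primes, if there are enough of them). The weighted form has arbitrary coefficients bounded by a power
of the logarithm and an error smaller than every power of the logarithm.
-/

set_option autoImplicit false

open Finset Filter Topology MeasureTheory
open scoped Classical

namespace Pool.Agent.Results.MP_a17b09_nt.AlmostEveryRealSystem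

/-- `log m` if `m` is a prime number, and `0` otherwise -/
noncomputable def theta (m : ℕ) : ℝ := if m.Prime then Real.log m else 0

/-- the number of elements `n` of `S` with `1 ≤ n ≤ N` -/
noncomputable def count (S : Set ℕ) (N : ℕ) : ℝ := ((Icc 1 N).filter (fun n => n ∈ S)).card

/-- the value at `n` of the polynomial `a X ^ d + e (d - 1) X ^ (d - 1) + ... + e 0` -/
noncomputable def value {d : ℕ} (a : ℝ) (e : Fin d → ℝ) (n : ℕ) : ℝ :=
  a * (n : ℝ) ^ d + ∑ j, e j * (n : ℝ) ^ (j : ℕ)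

theorem theta_eq (m : ℕ) : ((theta m : ℝ) : ℂ) = Pool.Agent.Q138.GS.th m := by
  unfold theta Pool.Agent.Q138.GS.th
  split_ifs <;> simp

theorem count_eq (S : Set ℕ) (N : ℕ) : count S N = Pool.Agent.Q138.GS.ct (fun n => n ∈ S) N := by
  unfold count Pool.Agent.Q138.GS.ct
  congr 2

theorem count_eq' {ι : Type} (S : Set ℕ) (m : ι → ℕ → ℕ) (N : ℕ) :
    count {n | n ∈ S ∧ ∀ i, (m i n).Prime} N =
      Pool.Agent.Q138.GS.ct (fun n => n ∈ S ∧ ∀ i, (m i n).Prime) N := by
  rw [count_eq]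
  rfl

theorem result :
    -- fixed shapes, almost all dilations: weighted form
    (∀ (k : ℕ) (P : Fin (k + 1) → Polynomial ℝ) (β : Fin (k + 1) → ℝ),
      (∀ i, 1 ≤ (P i).natDegree ∧ 0 < (P i).leadingCoeff) →
      ∀ (g : ℕ → ℂ) (C : ℝ) (B : ℕ), (∀ n : ℕ, 1 ≤ n → ‖g n‖ ≤ C * (Real.log (n + 3)) ^ B) →
      ∀ᵐ α : Fin (k + 1) → ℝ, (∀ i, 0 < α i) → ∀ K : ℕ,
        Tendsto (fun N : ℕ => (Real.log N) ^ K / N *
          ‖∑ n ∈ Icc 1 N, g n * ((∏ i, theta ⌊α i * (P i).eval (n : ℝ) + β i⌋₊ - 1 : ℝ) : ℂ)‖) atTop (𝓝 0)) ∧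
    -- fixed shapes, almost all dilations: counting along an arbitrary set
    (∀ (k : ℕ) (P : Fin (k + 1) → Polynomial ℝ) (β : Fin (k + 1) → ℝ),
      (∀ i, 1 ≤ (P i).natDegree ∧ 0 < (P i).leadingCoeff) →
      ∀ (S : Set ℕ) (B : ℕ), (∀ᶠ N : ℕ in atTop, (N : ℝ) / (Real.log N) ^ B ≤ count S N) →
      ∀ᵐ α : Fin (k + 1) → ℝ, (∀ i, 0 < α i) →
        Tendsto (fun N : ℕ => count {n | n ∈ S ∧ ∀ i, (⌊α i * (P i).eval (n : ℝ) + β i⌋₊).Prime} N *
          (Real.log N) ^ (k + 1) / count S N) atTop (𝓝 (1 / ∏ i, ((P i).natDegree : ℝ)))) ∧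
    -- almost all systems of real polynomials: weighted form
    (∀ (k : ℕ) (d : Fin (k + 1) → ℕ), (∀ i, 1 ≤ d i) →
      ∀ (g : ℕ → ℂ) (C : ℝ) (B : ℕ), (∀ n : ℕ, 1 ≤ n → ‖g n‖ ≤ C * (Real.log (n + 3)) ^ B) →
      ∀ᵐ f : (Fin (k + 1) → ℝ) × (∀ i, Fin (d i) → ℝ), (∀ i, 0 < f.1 i) → ∀ K : ℕ,
        Tendsto (fun N : ℕ => (Real.log N) ^ K / N *
          ‖∑ n ∈ Icc 1 N, g n * ((∏ i, theta ⌊value (f.1 i) (f.2 i) n⌋₊ - 1 : ℝ) : ℂ)‖) atTop (𝓝 0)) ∧
    -- almost all systems of real polynomials: counting along an arbitrary set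
    (∀ (k : ℕ) (d : Fin (k + 1) → ℕ), (∀ i, 1 ≤ d i) →
      ∀ (S : Set ℕ) (B : ℕ), (∀ᶠ N : ℕ in atTop, (N : ℝ) / (Real.log N) ^ B ≤ count S N) →
      ∀ᵐ f : (Fin (k + 1) → ℝ) × (∀ i, Fin (d i) → ℝ), (∀ i, 0 < f.1 i) →
        Tendsto (fun N : ℕ => count {n | n ∈ S ∧ ∀ i, (⌊value (f.1 i) (f.2 i) n⌋₊).Prime} N *
          (Real.log N) ^ (k + 1) / count S N) atTop (𝓝 (1 / ∏ i, (d i : ℝ)))) := by
  have hg1 : ∀ S : Set ℕ, ∀ n : ℕ, 1 ≤ n → ‖(if n ∈ S then (1 : ℂ) else 0)‖ ≤ 1 * (Real.log (n + 3)) ^ 0 := by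
    intro S n _
    split_ifs <;> simp
  have hpoly : ∀ (k : ℕ) (d : Fin (k + 1) → ℕ), (∀ i, 1 ≤ d i) →
      ∀ (g : ℕ → ℂ) (C : ℝ) (B : ℕ), (∀ n : ℕ, 1 ≤ n → ‖g n‖ ≤ C * (Real.log (n + 3)) ^ B) →
      ∀ᵐ f : (Fin (k + 1) → ℝ) × (∀ i, Fin (d i) → ℝ), (∀ i, 0 < f.1 i) →
        Pool.Agent.Q138.GS.Sav fun n => g n *
          (∏ i, Pool.Agent.Q138.GS.th ⌊Pool.Agent.Q138.GS.qv (f.1 i) (f.2 i) n⌋₊ - 1) := by
    intro k d hd g C B hg
    have h := Pool.Agent.Q138.GS.poly_sav k d hd (fun _ => Pool.Agent.Q138.GS.th)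
      (fun _ => Pool.Agent.Q138.GS.thw) (fun _ => 1) (fun _ n => Pool.Agent.Q138.GS.th_eq n)
      (fun _ n => Pool.Agent.Q138.GS.th_le n) (fun _ n => Pool.Agent.Q138.GS.thw_le n)
      (fun _ => Pool.Agent.Q138.GS.neg_thw) g C B hg
    simp only [prod_const_one] at h
    exact h
  refine ⟨fun k P β hP g C B hg => ?_, fun k P β hP S B hS => ?_, fun k d hd g C B hg => ?_,
    fun k d hd S B hS => ?_⟩
  · have h := Pool.Agent.Q138.GS.tup_sav k _ (fun i n => (P i).eval (n : ℝ))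
      (fun i => Pool.Agent.Q138.GS.sm_pol (hP i).1 (hP i).2) β g C B hg
    unfold Pool.Agent.Q138.GS.pm at h
    rw [ae_restrict_iff' (Pool.Agent.Q138.GS.pos_meas _)] at h
    filter_upwards [h] with α hα hpos K
    refine (hα hpos K).congr fun N => ?_
    congr 2
    refine sum_congr rfl fun n _ => ?_
    push_cast
    simp only [theta_eq]
  · have h := Pool.Agent.Q138.GS.tup_count k _ (fun i n => (P i).eval (n : ℝ))
      (fun i => Pool.Agent.Q138.GS.sm_pol (hP i).1 (hP i).2) β (fun n => n ∈ S) B (by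
        simpa only [count_eq] using hS)
    unfold Pool.Agent.Q138.GS.pm at h
    rw [ae_restrict_iff' (Pool.Agent.Q138.GS.pos_meas _)] at h
    filter_upwards [h] with α hα hpos
    refine (hα hpos).congr fun N => ?_
    rw [count_eq' S (fun i n => ⌊α i * (P i).eval (n : ℝ) + β i⌋₊), count_eq S]
  · filter_upwards [hpoly k d hd g C B hg] with f hf hpos K
    refine (hf hpos K).congr fun N => ?_
    congr 2
    refine sum_congr rfl fun n _ => ?_
    push_cast
    simp only [theta_eq]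
    rfl
  · filter_upwards [hpoly k d hd (fun n => if n ∈ S then 1 else 0) 1 0 (hg1 S)] with f hf hpos
    have h := Pool.Agent.Q138.GS.cnt_of_sav (fun i n => ⌊Pool.Agent.Q138.GS.qv (f.1 i) (f.2 i) n⌋₊)
      (fun i => (d i : ℝ)) (fun i => by exact_mod_cast hd i) (fun i => ?_) (fun n => n ∈ S) B (by
        simpa only [count_eq] using hS) (hf hpos)
    · rw [Fintype.card_fin] at h
      refine h.congr fun N => ?_
      rw [count_eq' S (fun i n => ⌊value (f.1 i) (f.2 i) n⌋₊), count_eq S]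
      rfl
    · have h1 := (Pool.Agent.Q138.GS.qv_sm (hd i) (hpos i) (f.2 i)).log (α := 1) (β := 0) one_pos
      simpa only [one_mul, add_zero] using h1

end Pool.Agent.Results.MP_a17b09_nt.AlmostEveryRealSystem
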