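import Mathlib
import Pool.Agent.Q239.LC.QFin

/-!
# Conjecture F on average over the leading coefficient, with the exact constant

The coefficients `b` and `c ≠ 0` are fixed and only the leading coefficient `a ≤ A` varies; the
argument `t` runs up to `x`, where `x` may be as large as `A^(1/4) / (log A)^K`. Since
`a t² + b t + c = p` means that `p ≡ b t + c (mod t²)`, the first moment over `a` comes from a
theorem of Bombieri-Vinogradov type for the moduli `t²` (proved here from the large sieve for the
characters of square modulus, with `t` up to `X^(1/6)`, and the exact constant); the second moment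
comes from the sieve for the pairs of linear forms `t₁² a + (b t₁ + c)`, `t₂² a + (b t₂ + c)`; and
the infinite products `C(a, b, c)` are compared with their cut products for almost all `a`.
-/

set_option autoImplicit false

namespace Pool.Agent.Results.MP_a17b09_nt.LeadingCoefficient

open Finset Filter Topology

/-- the triple `(a, b, c)` is admissible -/
def Admissible (a b c : ℤ) : Prop :=
  0 < a ∧ Int.gcd (Int.gcd a b) c = 1 ∧ ¬ (Even (a + b) ∧ Even c) ∧ ¬ IsSquare (b ^ 2 - 4 * a * c)

/-- `π_f(x)`: the number of integers `1 ≤ t ≤ x` for which `f(t) = a t² + b t + c` is a prime -/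
def primeCount (a b c : ℤ) (x : ℕ) : ℕ :=
  #((Icc 1 x).filter (fun t : ℕ => (a * (t : ℤ) ^ 2 + b * t + c).toNat.Prime))

/-- `ε = 1` if `a + b` is even and `ε = 1 / 2` if `a + b` is odd -/
noncomputable def eps (a b : ℤ) : ℝ := open Classical in if Even (a + b) then 1 else 1 / 2

/-- the partial product of `C(a, b, c)`: `ε` times the product of `p / (p - 1)` over the primes
`p ≥ 3` dividing `gcd(a, b)` times the product of `1 - (Δ / p) / (p - 1)` over the primes
`3 ≤ p ≤ z` not dividing `a`, where `Δ = b² - 4 a c` -/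
noncomputable def partialC (a b c : ℤ) (z : ℕ) : ℝ :=
  eps a b * (∏ p ∈ (Int.gcd a b).primeFactors.filter (fun p => 3 ≤ p), (p : ℝ) / (p - 1)) *
    ∏ p ∈ (Icc 3 z).filter (fun p : ℕ => p.Prime ∧ ¬ (p : ℤ) ∣ a),
      (1 - (jacobiSym (b ^ 2 - 4 * a * c) p : ℝ) / (p - 1))

/-- **Conjecture F on average over the leading coefficient.** There is an exponent `K` such that
for all integers `b` and `c ≠ 0` and all `θ < 1` there are `κ > 0` and `A0` with the following
property. Let `A ≥ A0`, `log A ≤ x` and `x⁴ (log A)^K ≤ A`. Then for at least `κ A` of the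
integers `1 ≤ a ≤ A` the triple `(a, b, c)` is admissible, the product `C(a, b, c)` converges to a
number `C > 0`, and `π_f(x)`, where `f(t) = a t² + b t + c`, is at least
`θ · 2 C · x / log (A x²)` and at least `κ x / log A`. -/
theorem result : ∃ K : ℕ, ∀ b c : ℤ, c ≠ 0 → ∀ θ : ℝ, θ < 1 →
    ∃ κ : ℝ, 0 < κ ∧ ∃ A0 : ℕ, ∀ A : ℕ, A0 ≤ A → ∀ x : ℕ, Real.log A ≤ x →
    (x : ℝ) ^ 4 * Real.log A ^ K ≤ A → ∃ S : Finset ℕ, S ⊆ Icc 1 A ∧ κ * A ≤ S.card ∧
      ∀ a ∈ S, Admissible a b c ∧ ∃ C : ℝ, 0 < C ∧
        Tendsto (fun z => partialC a b c z) atTop (𝓝 C) ∧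
        θ * (2 * C) * x / Real.log (A * x ^ 2) ≤ primeCount a b c x ∧
        κ * x / Real.log A ≤ primeCount a b c x :=
  Q239.LC.QFin.final

end Pool.Agent.Results.MP_a17b09_nt.LeadingCoefficient
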