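import Mathlib
import Pool.Agent.Q91.RQ.Fin

/-!
Signs of the rough values of `a t ^ 2 + b t + c`, `a` at least two and prime to `b`.
-/

set_option autoImplicit false
set_option maxHeartbeats 400000

namespace Pool.Agent.Results.MP_a17b09_nt.SignsOfRoughValues

open Finset Pool.Agent.Q91.RP

/-- `g` is completely multiplicative on the positive integers, with values `1` and `-1` -/
def SignFunction (g : ℕ → ℤ) : Prop :=
  (∀ n : ℕ, n ≠ 0 → g n = 1 ∨ g n = -1) ∧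
    ∀ m n : ℕ, m ≠ 0 → n ≠ 0 → g (m * n) = g m * g n

/-- `M` has at most `K` prime factors, counted with multiplicity, all larger than `X ^ (1 / K)` -/
def Rough (K X M : ℕ) : Prop :=
  M.primeFactorsList.length ≤ K ∧ ∀ p : ℕ, p.Prime → p ∣ M → X < p ^ K

/-- the polynomial -/
def F (a : ℕ) (b c : ℤ) (t : ℕ) : ℤ := a * (t : ℤ) ^ 2 + b * t + c

/-- the `1 ≤ t ≤ X` with `f(t) = r * M`, `M` rough, `g M = e` -/
def T (a : ℕ) (b c : ℤ) (r K X : ℕ) (g : ℕ → ℤ) (e : ℤ) : Set ℕ :=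
  {t : ℕ | 1 ≤ t ∧ t ≤ X ∧ ∃ M : ℕ, F a b c t = (r : ℤ) * M ∧ g M = e ∧ Rough K X M}

/-- the `1 ≤ t ≤ X` with `f(t)` positive, `g (f(t)) = g a` and `f(t) = r * M`, where `M` is rough and
`r` is `a` or `s` -/
def E (a : ℕ) (b c : ℤ) (s K X : ℕ) (g : ℕ → ℤ) : Set ℕ :=
  {t : ℕ | 1 ≤ t ∧ t ≤ X ∧ 0 < F a b c t ∧ g (F a b c t).toNat = g a ∧
    ∃ r M : ℕ, (r = a ∨ r = s) ∧ F a b c t = (r : ℤ) * M ∧ Rough K X M}

lemma T_sub_E {a : ℕ} {b c : ℤ} {r s K X : ℕ} {g : ℕ → ℤ} {e : ℤ} (hg : SignFunction g)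
    (hX : 2 ^ K ≤ X) (hr : r = a ∨ r = s) (hr0 : r ≠ 0) (he : g r * e = g a) :
    T a b c r K X g e ⊆ E a b c s K X g := by
  rintro t ⟨h1, h2, M, h3, h4, h5⟩
  have hM : M ≠ 0 := by
    rintro rfl
    have := h5.2 2 Nat.prime_two (dvd_zero _)
    omega
  have hpos : 0 < F a b c t := by
    rw [h3, ← Nat.cast_mul]
    exact_mod_cast Nat.pos_of_ne_zero (Nat.mul_ne_zero hr0 hM)
  refine ⟨h1, h2, hpos, ?_, r, M, hr, h3, h5⟩
  rw [h3, ← Nat.cast_mul, Int.toNat_natCast, hg.2 _ _ hr0 hM, h4, he]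

theorem result : ∃ K : ℕ, ∀ (a : ℕ) (b c : ℤ), 2 ≤ a → IsCoprime (a : ℤ) b →
    ¬ (Even ((a : ℤ) + b) ∧ Even c) → ∃ i j : ℕ,
    ((Even a ∨ (Odd b ∧ Odd c)) → i = 0) ∧
    ((3 ∣ a ∨ ¬ b ^ 2 - 4 * a * c ≡ 1 [ZMOD 3]) → j = 0) ∧
    ∃ X0 : ℕ, ∀ X : ℕ, X0 ≤ X → ∀ g : ℕ → ℤ, SignFunction g →
    (∃ e f : ℤ, (e = 1 ∨ e = -1) ∧ (f = 1 ∨ f = -1) ∧
      (X : ℝ) / Real.log X ^ K ≤ ((T a b c a K X g e).ncard : ℝ) ∧
      (X : ℝ) / Real.log X ^ K ≤ ((T a b c (2 ^ i * 3 ^ j) K X g f).ncard : ℝ) ∧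
      (X : ℝ) / Real.log X ^ K ≤ ((T a b c (2 ^ i * 3 ^ j) K X g (e * f)).ncard : ℝ)) ∧
    (X : ℝ) / Real.log X ^ K ≤ ((E a b c (2 ^ i * 3 ^ j) K X g).ncard : ℝ) := by
  classical
  obtain ⟨K, hK⟩ := Pool.Agent.Q91.RQ.main
  refine ⟨K, ?_⟩
  intro a b c ha hab hpar
  obtain ⟨i, j, hi, hj, X0, hX0⟩ := hK a b c (by omega) hab (by
    rintro ⟨h1, h2, h3⟩
    apply hpar
    refine ⟨?_, h3⟩
    have h4 : Odd (a : ℤ) := by
      rw [Int.odd_coe_nat, ← Nat.not_even_iff_odd, even_iff_two_dvd]; exact h1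
    exact h4.add_odd h2)
  refine ⟨i, j, ?_, ?_, X0 + 2 ^ K, ?_⟩
  · intro h
    apply hi
    rcases h with h | h
    · exact Or.inl (even_iff_two_dvd.1 h)
    · exact Or.inr h
  · intro h
    apply hj
    rcases h with h | h
    · exact Or.inl h
    · refine Or.inr fun h' => h ?_
      exact (Int.modEq_iff_dvd.2 h').symm
  intro X hX g hg
  obtain ⟨e, f, he, hf, h1, h2, h3⟩ := hX0 X (le_trans (Nat.le_add_right _ _) hX) g ⟨hg.1, hg.2⟩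
  have conv : ∀ (r : ℕ) (e : ℤ) (y : ℝ),
      y ≤ ((TF (fun m => (a : ℤ) * (m : ℤ) ^ 2 + b * m + c) r K X g e).card : ℝ) →
      y ≤ ((T a b c r K X g e).ncard : ℝ) := by
    intro r e y hy
    refine hy.trans ?_
    have hsub : ((TF (fun m => (a : ℤ) * (m : ℤ) ^ 2 + b * m + c) r K X g e : Finset ℕ) : Set ℕ) ⊆
        T a b c r K X g e := by
      intro n hn
      unfold TF at hn
      rw [mem_coe, mem_filter, mem_Icc] at hn
      obtain ⟨⟨h1, h2⟩, M, h5, h3, h6, h7⟩ := hn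
      exact ⟨h1, h2, M, h5, h3, h6, h7⟩
    have hfin : Set.Finite (T a b c r K X g e) := (Set.finite_Iic X).subset (fun k hk => hk.2.1)
    rw [← Set.ncard_coe_finset]
    exact_mod_cast Set.ncard_le_ncard hsub hfin
  have c1 := conv _ _ _ h1
  have c2 := conv _ _ _ h2
  have c3 := conv _ _ _ h3
  refine ⟨⟨e, f, he, hf, c1, c2, c3⟩, ?_⟩
  have hfinE : Set.Finite (E a b c (2 ^ i * 3 ^ j) K X g) :=
    (Set.finite_Iic X).subset (fun k hk => hk.2.1)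
  have toE : ∀ (r : ℕ) (e : ℤ) (y : ℝ), (r = a ∨ r = 2 ^ i * 3 ^ j) → r ≠ 0 → g r * e = g a →
      y ≤ ((T a b c r K X g e).ncard : ℝ) →
      y ≤ ((E a b c (2 ^ i * 3 ^ j) K X g).ncard : ℝ) := by
    intro r e y hr hr0 hge hy
    refine hy.trans ?_
    exact_mod_cast Set.ncard_le_ncard (T_sub_E hg
      (le_trans (Nat.le_add_left _ _) hX) hr hr0 hge) hfinE
  have ha0 : a ≠ 0 := by omega
  have hs0 : 2 ^ i * 3 ^ j ≠ 0 := by positivity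
  rcases he with rfl | rfl
  · exact toE a 1 _ (Or.inl rfl) ha0 (by ring) c1
  · rcases hg.1 a ha0 with ga | ga <;> rcases hg.1 _ hs0 with gs | gs <;> rcases hf with rfl | rfl
    · exact toE _ 1 _ (Or.inr rfl) hs0 (by rw [ga, gs]; norm_num) c2
    · exact toE _ (-1 * -1) _ (Or.inr rfl) hs0 (by rw [ga, gs]; norm_num) c3
    · exact toE _ (-1 * 1) _ (Or.inr rfl) hs0 (by rw [ga, gs]; norm_num) c3
    · exact toE _ (-1) _ (Or.inr rfl) hs0 (by rw [ga, gs]; norm_num) c2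
    · exact toE _ (-1 * 1) _ (Or.inr rfl) hs0 (by rw [ga, gs]; norm_num) c3
    · exact toE _ (-1) _ (Or.inr rfl) hs0 (by rw [ga, gs]; norm_num) c2
    · exact toE _ 1 _ (Or.inr rfl) hs0 (by rw [ga, gs]; norm_num) c2
    · exact toE _ (-1 * -1) _ (Or.inr rfl) hs0 (by rw [ga, gs]; norm_num) c3

end Pool.Agent.Results.MP_a17b09_nt.SignsOfRoughValues
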